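import Pool.Agent.H77.MFL.CT4

/-!
# Board mfl, module CT1: the degree of `Y k`
-/

set_option autoImplicit false

open Module MvPolynomial

namespace Pool.MFL

namespace CT1

section Main

variable {R₀ S U τ ι J : Type} [CommRing R₀] [CommRing S] [Ring U] [Fintype τ] [Fintype ι]
    [DecidableEq ι] (𝒟 : CD R₀ S U τ ι J)

/-- The commutator of `q j` with `e s`. -/
theorem q_com (j : J) (s : S) :
    𝒟.q j * 𝒟.e s - 𝒟.e s * 𝒟.q j = 𝒟.e (∑ l, 𝒟.N l j * 𝒟.D l s) := by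
  rw [𝒟.hq j, add_mul, mul_add, CT4.com_e 𝒟 (𝒟.b j) s, add_sub_add_left_eq_sub, Finset.sum_mul,
    Finset.mul_sum, ← Finset.sum_sub_distrib, map_sum]
  refine Finset.sum_congr rfl fun l _ => ?_
  rw [map_mul, ← 𝒟.hx l s, mul_sub, mul_assoc, ← mul_assoc (𝒟.e s), CT4.com_e 𝒟 s, mul_assoc]

/-- The derivation attached to `q j`. -/
noncomputable def Xd (j : J) : Derivation ℤ S S := ∑ l, 𝒟.N l j • 𝒟.D l

theorem Xd_apply (j : J) (s : S) : Xd 𝒟 j s = ∑ l, 𝒟.N l j * 𝒟.D l s := by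
  rw [Xd]
  have : ∀ t : Finset τ, (∑ l ∈ t, 𝒟.N l j • 𝒟.D l) s = ∑ l ∈ t, 𝒟.N l j * 𝒟.D l s := by
    intro t
    classical
    induction t using Finset.induction_on with
    | empty => simp
    | insert l t hl ih =>
      rw [Finset.sum_insert hl, Finset.sum_insert hl, Derivation.add_apply, ih,
        Derivation.smul_apply, smul_eq_mul]
  exact this _

/-- The data for Hochschild's formula. -/
noncomputable def nrm : Nrm S U ι where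
  e := 𝒟.e
  t := fun j => 𝒟.q (𝒟.a j)
  X := fun j => Xd 𝒟 (𝒟.a j)
  ht := fun _ _ => 𝒟.hc _ _
  hX := fun j s => by rw [q_com, Xd_apply]

/-- The coefficient `M l`. -/
noncomputable def M (k : ι) (l : τ) : S := ∑ j, 𝒟.N l (𝒟.a j) * 𝒟.Ad j k

/-- The operator `E`. -/
noncomputable def E (k : ι) (s : S) : S := ∑ l, M 𝒟 k l * 𝒟.D l s

/-- The element `lam`. -/
noncomputable def lam (k : ι) : U := ∑ l, 𝒟.e (M 𝒟 k l) * 𝒟.x l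

/-- The element `phi`. -/
noncomputable def phi (k : ι) : S := ∑ j, 𝒟.Ad j k * 𝒟.b (𝒟.a j)

theorem eps_eq (k : ι) :
    ∑ j, 𝒟.e (𝒟.Ad j k) * 𝒟.q (𝒟.a j) = lam 𝒟 k + 𝒟.e (phi 𝒟 k) := by
  have h : ∀ j, 𝒟.e (𝒟.Ad j k) * 𝒟.q (𝒟.a j) = 𝒟.e (𝒟.Ad j k * 𝒟.b (𝒟.a j)) +
      ∑ l, 𝒟.e (𝒟.N l (𝒟.a j) * 𝒟.Ad j k) * 𝒟.x l := by
    intro j
    rw [𝒟.hq, mul_add, map_mul, Finset.mul_sum]
    congr 1
    refine Finset.sum_congr rfl fun l _ => ?_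
    rw [map_mul, ← mul_assoc, CT4.com_e 𝒟]
  rw [Finset.sum_congr rfl fun j _ => h j, Finset.sum_add_distrib, Finset.sum_comm, add_comm]
  congr 1
  · rw [lam]
    refine Finset.sum_congr rfl fun l _ => ?_
    rw [M, map_sum, Finset.sum_mul]
  · rw [phi, map_sum]

theorem lam_com (k : ι) (s : S) : adc (lam 𝒟 k) (𝒟.e s) = 𝒟.e (E 𝒟 k s) := by
  rw [adc, lam, Finset.sum_mul, Finset.mul_sum, ← Finset.sum_sub_distrib, E, map_sum]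
  refine Finset.sum_congr rfl fun l _ => ?_
  rw [map_mul, ← 𝒟.hx l s, mul_sub, mul_assoc, ← mul_assoc (𝒟.e s), CT4.com_e 𝒟 s, mul_assoc]

theorem lam_it (k : ι) (s : S) (n : ℕ) :
    (adc (lam 𝒟 k))^[n] (𝒟.e s) = 𝒟.e ((E 𝒟 k)^[n] s) := by
  induction n with
  | zero => rfl
  | succ n ih => rw [Function.iterate_succ_apply', ih, lam_com, Function.iterate_succ_apply']

theorem E_eq (k : ι) (s : S) : ∑ j, 𝒟.Ad j k * Xd 𝒟 (𝒟.a j) s = E 𝒟 k s := by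
  have h : ∀ j, 𝒟.Ad j k * Xd 𝒟 (𝒟.a j) s =
      ∑ l, 𝒟.N l (𝒟.a j) * 𝒟.Ad j k * 𝒟.D l s := by
    intro j
    rw [Xd_apply, Finset.mul_sum]
    refine Finset.sum_congr rfl fun l _ => ?_
    ring
  rw [Finset.sum_congr rfl fun j _ => h j, Finset.sum_comm, E]
  refine Finset.sum_congr rfl fun l _ => ?_
  rw [M, Finset.sum_mul]

variable (p : ℕ) [Fact p.Prime] [CharP S p] [CharP U p]

/-- The formula for `Y k`. -/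
theorem Y_eq (hJ : JACStmt) (hH : HOCStmt) (k : ι) :
    𝒟.Y p k = lam 𝒟 k ^ p + 𝒟.e ((E 𝒟 k)^[p - 1] (phi 𝒟 k)) -
      ∑ j, 𝒟.e ((E 𝒟 k)^[p - 1] (𝒟.Ad j k)) * 𝒟.q (𝒟.a j) := by
  have e1 := hH S U ι p (nrm 𝒟) (fun j => 𝒟.Ad j k)
  have e2 : (∑ j, 𝒟.e (𝒟.Ad j k) * 𝒟.q (𝒟.a j)) ^ p =
      ∑ j, 𝒟.e (𝒟.Ad j k) ^ p * 𝒟.q (𝒟.a j) ^ p +
        ∑ j, 𝒟.e ((E 𝒟 k)^[p - 1] (𝒟.Ad j k)) * 𝒟.q (𝒟.a j) := by
    have hE : (fun s => ∑ j, 𝒟.Ad j k * Xd 𝒟 (𝒟.a j) s) = E 𝒟 k := by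
      funext s; exact E_eq 𝒟 k s
    have := e1
    simp only [nrm] at this
    rw [hE] at this
    exact this
  have e3 := hJ U p (lam 𝒟 k) (𝒟.e (phi 𝒟 k)) (fun n => by
    rw [lam_it]; exact CT4.com_e 𝒟 _ _)
  rw [← eps_eq, lam_it, e2] at e3
  have e4 : 𝒟.e (phi 𝒟 k) ^ p = ∑ j, 𝒟.e (𝒟.Ad j k) ^ p * 𝒟.e (𝒟.b (𝒟.a j)) ^ p := by
    rw [← map_pow, phi]
    have : (∑ j, 𝒟.Ad j k * 𝒟.b (𝒟.a j)) ^ p = ∑ j, (𝒟.Ad j k * 𝒟.b (𝒟.a j)) ^ p :=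
      sum_pow_char p _ _
    rw [this, map_sum]
    refine Finset.sum_congr rfl fun j _ => ?_
    rw [mul_pow, map_mul, map_pow, map_pow]
  rw [CD.Y]
  have e5 : ∑ j, 𝒟.e (𝒟.Ad j k) ^ p * (𝒟.q (𝒟.a j) ^ p - 𝒟.e (𝒟.b (𝒟.a j)) ^ p) =
      ∑ j, 𝒟.e (𝒟.Ad j k) ^ p * 𝒟.q (𝒟.a j) ^ p -
        ∑ j, 𝒟.e (𝒟.Ad j k) ^ p * 𝒟.e (𝒟.b (𝒟.a j)) ^ p := by
    rw [← Finset.sum_sub_distrib]
    refine Finset.sum_congr rfl fun j _ => ?_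
    rw [mul_sub]
  have e6 := eq_sub_of_add_eq e3
  rw [e5, ← e4, e6]
  abel

end Main

section Degf

variable {R₀ S U τ ι J : Type} [CommRing R₀] [CommRing S] [Ring U] [Fintype τ] [Fintype ι]
    [DecidableEq ι] (𝒟 : CD R₀ S U τ ι J) (δ : Deg U) (p : ℕ) (dΔ : ℤ) (h : CDg 𝒟 δ p dΔ)

include h

theorem E_deg (k : ι) (d : ℤ) (s : S) (hs : 𝒟.e s ∈ δ.F d) : 𝒟.e (E 𝒟 k s) ∈ δ.F (d + dΔ) := by
  rw [E, map_sum]
  refine AddSubgroup.sum_mem _ fun l _ => ?_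
  rw [map_mul, add_comm d dΔ]
  exact δ.mul _ _ _ _ (h.m l k) (h.D0 l d s hs)

theorem E_deg_it (k : ι) (d : ℤ) (s : S) (hs : 𝒟.e s ∈ δ.F d) (n : ℕ) :
    𝒟.e ((E 𝒟 k)^[n] s) ∈ δ.F (d + n * dΔ) := by
  induction n with
  | zero => simpa using hs
  | succ n ih =>
    rw [Function.iterate_succ_apply']
    have := E_deg 𝒟 δ p dΔ h k _ _ ih
    have e : d + ((n + 1 : ℕ) : ℤ) * dΔ = d + n * dΔ + dΔ := by push_cast; ring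
    rw [e]; exact this

theorem lam_deg (k : ι) : lam 𝒟 k ∈ δ.F (dΔ + 1) := by
  rw [lam]
  refine AddSubgroup.sum_mem _ fun l _ => ?_
  exact δ.mul _ _ _ _ (h.m l k) (h.x1 l)

end Degf

end CT1

/-- The degree of `Y k`. -/
theorem t_ct1 (h1 : JACStmt) (h2 : HOCStmt) : CT1Stmt := by
  intro R₀ S U τ ι J _ _ _ _ _ _ p _ _ _ 𝒟 δ dΔ hdg k
  have hp : 1 ≤ p := (Fact.out : p.Prime).one_le
  rw [CT1.Y_eq 𝒟 p h1 h2 k]
  have hp1 : ((p - 1 : ℕ) : ℤ) = p - 1 := by push_cast [hp]; ring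
  refine AddSubgroup.sub_mem _ (AddSubgroup.add_mem _ ?_ ?_) ?_
  · exact CT4.pow_mem δ _ _ (CT1.lam_deg 𝒟 δ p dΔ hdg k) p
  · have hphi : 𝒟.e (CT1.phi 𝒟 k) ∈ δ.F (dΔ + p) := by
      rw [CT1.phi, map_sum]
      refine AddSubgroup.sum_mem _ fun j _ => ?_
      obtain ⟨d₁, d₂, a1, _, a3, a4⟩ := hdg.bd j k
      rw [map_mul]
      exact δ.mono _ _ a4 (δ.mul _ _ _ _ a1 a3)
    have := CT1.E_deg_it 𝒟 δ p dΔ hdg k _ _ hphi (p - 1)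
    rw [hp1] at this
    have e : dΔ + (p : ℤ) + ((p : ℤ) - 1) * dΔ = p * (dΔ + 1) := by ring
    rwa [e] at this
  · refine AddSubgroup.sum_mem _ fun j _ => ?_
    obtain ⟨d₁, d₂, a1, a2, _, a4⟩ := hdg.bd j k
    have := δ.mul _ _ _ _ (CT1.E_deg_it 𝒟 δ p dΔ hdg k _ _ a1 (p - 1)) a2
    rw [hp1] at this
    refine δ.mono _ _ ?_ this
    have e : d₁ + ((p : ℤ) - 1) * dΔ + d₂ = (d₁ + d₂) + ((p : ℤ) - 1) * dΔ := by ring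
    rw [e]
    calc (d₁ + d₂) + ((p : ℤ) - 1) * dΔ ≤ (dΔ + p) + ((p : ℤ) - 1) * dΔ := by linarith
      _ = p * (dΔ + 1) := by ring

end Pool.MFL
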