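import Pool.Agent.H77.MFL.CT4

/-!
# Board mfl, module CT2: the `p`-th powers of the `q j`
-/

set_option autoImplicit false

open Module MvPolynomial

namespace Pool.MFL

namespace CT2

variable {R₀ S U τ ι J : Type} [CommRing R₀] [CommRing S] [Ring U] [Fintype τ] [Fintype ι]
    [DecidableEq ι] (𝒟 : CD R₀ S U τ ι J)

/-- The coefficients `psi`. -/
noncomputable def psi (j : J) (i : ι) : S := ∑ k, 𝒟.Ad i k * 𝒟.N (𝒟.r k) j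

/-- The constant coefficient. -/
noncomputable def psi0 (j : J) : S := 𝒟.Δ * 𝒟.b j - ∑ i, psi 𝒟 j i * 𝒟.b (𝒟.a i)

theorem rel (j : J) :
    𝒟.e 𝒟.Δ * 𝒟.q j = ∑ i, 𝒟.e (psi 𝒟 j i) * 𝒟.q (𝒟.a i) + 𝒟.e (psi0 𝒟 j) := by
  have h : ∀ i, 𝒟.e (psi 𝒟 j i) * 𝒟.q (𝒟.a i) = 𝒟.e (psi 𝒟 j i * 𝒟.b (𝒟.a i)) +
      ∑ l, 𝒟.e (𝒟.N l (𝒟.a i) * psi 𝒟 j i) * 𝒟.x l := by
    intro i
    rw [𝒟.hq, mul_add, map_mul, Finset.mul_sum]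
    congr 1
    refine Finset.sum_congr rfl fun l _ => ?_
    rw [map_mul, ← mul_assoc, CT4.com_e 𝒟]
  rw [Finset.sum_congr rfl fun i _ => h i, Finset.sum_add_distrib, Finset.sum_comm, psi0,
    map_sub, map_sum, 𝒟.hq, mul_add, Finset.mul_sum, map_mul]
  have h2 : ∀ l, 𝒟.e 𝒟.Δ * (𝒟.e (𝒟.N l j) * 𝒟.x l) =
      ∑ i, 𝒟.e (𝒟.N l (𝒟.a i) * psi 𝒟 j i) * 𝒟.x l := by
    intro l
    rw [← mul_assoc, ← map_mul, 𝒟.h3, ← Finset.sum_mul, ← map_sum]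
    congr 2
    refine Finset.sum_congr rfl fun i _ => ?_
    rw [psi, Finset.mul_sum]
    refine Finset.sum_congr rfl fun k _ => ?_
    ring
  rw [Finset.sum_congr rfl fun l _ => h2 l]
  abel

end CT2

/-- The `p`-th powers of the `q j`. -/
theorem t_ct2 (h1 : PWLStmt) : CT2Stmt := by
  intro R₀ S U τ ι J _ _ _ _ _ _ p _ _ _ 𝒟 j
  have e1 := h1 S U ι p 𝒟.e (fun i => 𝒟.q (𝒟.a i)) (fun _ _ => 𝒟.hc _ _) (𝒟.q j) 𝒟.Δ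
    (CT2.psi0 𝒟 j) (CT2.psi 𝒟 j) (fun _ => 𝒟.hc _ _) (CT2.rel 𝒟 j)
  rw [e1]
  have hps : ∀ i, 𝒟.e (CT2.psi 𝒟 j i) ^ p =
      ∑ k, 𝒟.e (𝒟.N (𝒟.r k) j) ^ p * 𝒟.e (𝒟.Ad i k) ^ p := by
    intro i
    rw [← map_pow, CT2.psi, sum_pow_char p, map_sum]
    refine Finset.sum_congr rfl fun k _ => ?_
    rw [mul_comm, mul_pow, map_mul, map_pow, map_pow]
  have hp0 : 𝒟.e (CT2.psi0 𝒟 j) ^ p = 𝒟.e 𝒟.Δ ^ p * 𝒟.e (𝒟.b j) ^ p -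
      ∑ i, 𝒟.e (CT2.psi 𝒟 j i) ^ p * 𝒟.e (𝒟.b (𝒟.a i)) ^ p := by
    rw [← map_pow, CT2.psi0, sub_pow_char, sum_pow_char p, map_sub, map_sum, mul_pow, map_mul,
      map_pow, map_pow]
    congr 1
    refine Finset.sum_congr rfl fun i _ => ?_
    rw [mul_pow, map_mul, map_pow, map_pow]
  have hY : ∑ k, 𝒟.e (𝒟.N (𝒟.r k) j) ^ p * 𝒟.Y p k =
      ∑ i, 𝒟.e (CT2.psi 𝒟 j i) ^ p * (𝒟.q (𝒟.a i) ^ p - 𝒟.e (𝒟.b (𝒟.a i)) ^ p) := by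
    simp only [CD.Y, Finset.mul_sum]
    rw [Finset.sum_comm]
    refine Finset.sum_congr rfl fun i _ => ?_
    rw [hps, Finset.sum_mul]
    refine Finset.sum_congr rfl fun k _ => ?_
    rw [mul_assoc]
  have hY2 : ∑ i, 𝒟.e (CT2.psi 𝒟 j i) ^ p * (𝒟.q (𝒟.a i) ^ p - 𝒟.e (𝒟.b (𝒟.a i)) ^ p) =
      ∑ i, 𝒟.e (CT2.psi 𝒟 j i) ^ p * 𝒟.q (𝒟.a i) ^ p -
        ∑ i, 𝒟.e (CT2.psi 𝒟 j i) ^ p * 𝒟.e (𝒟.b (𝒟.a i)) ^ p := by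
    rw [← Finset.sum_sub_distrib]
    refine Finset.sum_congr rfl fun i _ => ?_
    rw [mul_sub]
  rw [hY, hY2, hp0]
  abel

end Pool.MFL
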