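import Pool.Agent.H51.MFL.S

/-!
# Board mfl, module CT4: the core theorem
-/

set_option autoImplicit false

open Module MvPolynomial

namespace Pool.MFL

namespace CT4

section Degf

variable {U : Type} [Ring U] (δ : Deg U)

theorem pow_mem (a : ℤ) (u : U) (hu : u ∈ δ.F a) (n : ℕ) : u ^ n ∈ δ.F (n * a) := by
  induction n with
  | zero => simpa using δ.one
  | succ n ih =>
    rw [pow_succ]
    have := δ.mul _ _ _ _ ih hu
    have h2 : ((n + 1 : ℕ) : ℤ) * a = n * a + a := by push_cast; ring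
    rw [h2]; exact this

theorem pow_not_mem (a : ℤ) (u : U) (hu : u ∉ δ.F a) (n : ℕ) (hn : 1 ≤ n) :
    u ^ n ∉ δ.F (n * (a + 1) - 1) := by
  induction n, hn using Nat.le_induction with
  | base => simpa using hu
  | succ n _ ih =>
    rw [pow_succ]
    have := δ.str _ _ _ _ ih hu
    have h2 : ((n + 1 : ℕ) : ℤ) * (a + 1) - 1 = n * (a + 1) - 1 + a + 1 := by push_cast; ring
    rw [h2]; exact this

/-- A product over a finite type. -/
theorem list_prod_mem {ι : Type} (l : List ι) (f : ι → U) (a : ι → ℤ)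
    (h : ∀ i ∈ l, f i ∈ δ.F (a i)) : (l.map f).prod ∈ δ.F (l.map a).sum := by
  induction l with
  | nil => simpa using δ.one
  | cons i l ih =>
    simp only [List.map_cons, List.prod_cons, List.sum_cons]
    exact δ.mul _ _ _ _ (h i (by simp)) (ih fun j hj => h j (by simp [hj]))

end Degf

section Deg2

variable {B U ι : Type} [CommRing B] [Ring U] (δ : Deg U) (s : B →+* U)

theorem prod_mem (t : Finset ι) (f : ι → B) (a : ι → ℤ) (h : ∀ i ∈ t, s (f i) ∈ δ.F (a i)) :
    s (∏ i ∈ t, f i) ∈ δ.F (∑ i ∈ t, a i) := by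
  classical
  induction t using Finset.induction_on with
  | empty => simpa using δ.one
  | insert i t hi ih =>
    rw [Finset.prod_insert hi, Finset.sum_insert hi, map_mul]
    exact δ.mul _ _ _ _ (h i (by simp)) (ih fun j hj => h j (by simp [hj]))

end Deg2

/-- The total degree does not grow under an affine substitution. -/
theorem tot_subst {R₀ S ι J : Type} [CommRing R₀] [CommRing S] (ρ : R₀ →+* S)
    (l : J → MvPolynomial ι S) (hl : ∀ j, (l j).totalDegree ≤ 1) (F : MvPolynomial J R₀) :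
    (eval₂ ((MvPolynomial.C).comp ρ) l F).totalDegree ≤ F.totalDegree := by
  rw [MvPolynomial.eval₂_eq]
  refine MvPolynomial.totalDegree_finsetSum_le fun d hd => ?_
  refine (MvPolynomial.totalDegree_mul _ _).trans ?_
  simp only [RingHom.comp_apply, MvPolynomial.totalDegree_C, zero_add]
  refine (MvPolynomial.totalDegree_finsetProd _ _).trans ?_
  refine le_trans ?_ (MvPolynomial.le_totalDegree hd)
  rw [Finsupp.sum]
  refine Finset.sum_le_sum fun j _ => ?_
  refine (MvPolynomial.totalDegree_pow _ _).trans ?_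
  calc d j * (l j).totalDegree ≤ d j * 1 := Nat.mul_le_mul_left _ (hl j)
    _ = d j := mul_one _

section Main

variable {R₀ S U τ ι J : Type} [CommRing R₀] [CommRing S] [Ring U] [Fintype τ] [Fintype ι]
    [DecidableEq ι] (p : ℕ) [Fact p.Prime] [CharP S p] [CharP U p] (𝒟 : CD R₀ S U τ ι J)

theorem com_e (s s' : S) : 𝒟.e s * 𝒟.e s' = 𝒟.e s' * 𝒟.e s := by
  rw [← map_mul, ← map_mul, mul_comm]

/-- `q j` commutes with `e s` as soon as all derivatives of `s` vanish. -/
theorem com_q (s : S) (hs : ∀ l, 𝒟.D l s = 0) (j : J) : 𝒟.q j * 𝒟.e s = 𝒟.e s * 𝒟.q j := by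
  rw [𝒟.hq j, add_mul, mul_add, com_e 𝒟]
  congr 1
  rw [Finset.sum_mul, Finset.mul_sum]
  refine Finset.sum_congr rfl fun l _ => ?_
  have h := 𝒟.hx l s
  rw [hs l, map_zero, sub_eq_zero] at h
  rw [mul_assoc, h, ← mul_assoc, ← mul_assoc, com_e 𝒟]

omit [Fact p.Prime] [CharP U p] in
theorem D_pow (s : S) (l : τ) : 𝒟.D l (s ^ p) = 0 := by
  rw [Derivation.leibniz_pow]
  rw [← Nat.cast_smul_eq_nsmul S p, CharP.cast_eq_zero, zero_smul]

omit [CharP U p] in
/-- The commutative ring in which the computation takes place. -/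
theorem exB : ∃ (B : Type) (_ : CommRing B) (s : B →+* U) (θ : S →+* B) (q' : J → B)
    (r' : R₀ →+* B), Function.Injective s ∧ (∀ x, s (θ x) = 𝒟.e x ^ p) ∧
    (∀ j, s (q' j) = 𝒟.q j) ∧ ∀ r, s (r' r) = 𝒟.e (𝒟.ρ r) := by
  set A : Set U := (Set.range fun x : S => 𝒟.e (x ^ p)) ∪
    ((Set.range fun r => 𝒟.e (𝒟.ρ r)) ∪ Set.range 𝒟.q) with hA
  have hc : ∀ a ∈ A, ∀ b ∈ A, a * b = b * a := by
    rintro a (⟨x, rfl⟩ | ⟨r, rfl⟩ | ⟨i, rfl⟩) b (⟨y, rfl⟩ | ⟨r', rfl⟩ | ⟨j, rfl⟩)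
    · exact com_e 𝒟 _ _
    · exact com_e 𝒟 _ _
    · exact (com_q 𝒟 _ (D_pow p 𝒟 x) j).symm
    · exact com_e 𝒟 _ _
    · exact com_e 𝒟 _ _
    · exact (com_q 𝒟 _ (fun l => 𝒟.hρ l r) j).symm
    · exact com_q 𝒟 _ (D_pow p 𝒟 y) i
    · exact com_q 𝒟 _ (fun l => 𝒟.hρ l r') i
    · exact 𝒟.hc i j
  have hcm := Subring.isMulCommutative_closure hc
  let _ : CommRing (Subring.closure A) :=
    { (inferInstance : Ring (Subring.closure A)) with
      mul_comm := fun x y => hcm.is_comm.comm x y }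
  refine ⟨Subring.closure A, inferInstance, (Subring.closure A).subtype,
    (𝒟.e.comp (frobenius S p)).codRestrict (Subring.closure A) ?_,
    fun j => ⟨𝒟.q j, Subring.subset_closure (Or.inr (Or.inr ⟨j, rfl⟩))⟩,
    (𝒟.e.comp 𝒟.ρ).codRestrict (Subring.closure A) ?_, ?_, ?_, ?_, ?_⟩
  · intro x
    exact Subring.subset_closure (Or.inl ⟨x, rfl⟩)
  · intro r
    exact Subring.subset_closure (Or.inr (Or.inl ⟨r, rfl⟩))
  · exact Subtype.val_injective
  · intro x
    change 𝒟.e (frobenius S p x) = _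
    rw [frobenius_def, map_pow]
  · intro j; rfl
  · intro r; rfl

end Main

end CT4

/-- The core theorem. -/
theorem t_ct4 (h1 : CT1Stmt) (h2 : CT2Stmt) (h3 : CT3Stmt) : CT4Stmt := by
  intro R₀ S U τ ι J _ _ _ _ _ _ p _ _ _ 𝒟 δ dΔ hdg ev hevC hevX F d g hg hco
  have hp : 2 ≤ p := (Fact.out : p.Prime).two_le
  by_contra hF
  obtain ⟨B, _, s, θ, q', r', hs, hθ, hq, hr⟩ := CT4.exB p 𝒟
  have : CharP B p := RingHom.charP s hs p
  -- the elements `Y`
  set Y' : ι → B := fun k => ∑ j, θ (𝒟.Ad j k) * (q' (𝒟.a j) ^ p - θ (𝒟.b (𝒟.a j))) with hY'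
  have hY : ∀ k, s (Y' k) = 𝒟.Y p k := by
    intro k
    simp only [hY', map_sum, map_mul, map_sub, map_pow, hθ, hq, CD.Y]
  have hYd : ∀ k, s (Y' k) ∈ δ.F (p * (dΔ + 1)) := fun k => by
    rw [hY]; exact h1 R₀ S U τ ι J p 𝒟 δ dΔ hdg k
  have hrel : ∀ j, θ 𝒟.Δ * q' j ^ p = ∑ i, θ (𝒟.N (𝒟.r i) j) * Y' i + θ 𝒟.Δ * θ (𝒟.b j) := by
    intro j
    apply hs
    simp only [map_sum, map_mul, map_add, map_pow, hθ, hq, hY]
    exact h2 R₀ S U τ ι J p 𝒟 j
  have hrr : ∀ r, θ (𝒟.ρ r) = r' r ^ p := by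
    intro r
    apply hs
    rw [hθ, map_pow, hr]
  have hsub := h3 R₀ S B ι J 𝒟.ρ θ 𝒟.Δ (fun i j => 𝒟.N (𝒟.r i) j) 𝒟.b (fun j => q' j ^ p) Y'
    hrel F F.totalDegree g le_rfl hg
  -- the `p`-th power of `ev F`
  have hevF : s (eval₂ r' q' F) = ev F := by
    have : s.comp (MvPolynomial.eval₂Hom r' q') = ev := by
      apply MvPolynomial.ringHom_ext
      · intro r
        simp [hevC, hr]
      · intro j
        simp [hevX, hq]
    have h := RingHom.congr_fun this F
    simpa using h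
  have hpow : eval₂ (θ.comp 𝒟.ρ) (fun j => q' j ^ p) F = eval₂ r' q' F ^ p := by
    have : (MvPolynomial.eval₂Hom (θ.comp 𝒟.ρ) (fun j => q' j ^ p)) =
        (frobenius B p).comp (MvPolynomial.eval₂Hom r' q') := by
      apply MvPolynomial.ringHom_ext
      · intro r
        simp [hrr, frobenius_def]
      · intro j
        simp [frobenius_def]
    have h := RingHom.congr_fun this F
    rw [RingHom.comp_apply, frobenius_def] at h
    exact h
  rw [hpow] at hsub
  set K := F.totalDegree with hK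
  have hgK : g.totalDegree ≤ K := by
    rw [hg]
    refine CT4.tot_subst 𝒟.ρ _ (fun j => ?_) F
    refine (MvPolynomial.totalDegree_add _ _).trans (max_le ?_ ?_)
    · simp
    · refine MvPolynomial.totalDegree_finsetSum_le fun i _ => ?_
      refine (MvPolynomial.totalDegree_mul _ _).trans ?_
      rw [MvPolynomial.totalDegree_C, zero_add]
      by_cases hS : Nontrivial S
      · rw [MvPolynomial.totalDegree_X]
      · rw [not_nontrivial_iff_subsingleton] at hS
        have : (X i : MvPolynomial ι S) = 0 := Subsingleton.elim _ _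
        rw [this]; simp
  have hright : s (∑ α ∈ g.support, θ (coeff α g) * θ 𝒟.Δ ^ (K - α.degree) * ∏ i, Y' i ^ α i) ∈
      δ.F (p * d + p * K * dΔ) := by
    rw [map_sum]
    refine AddSubgroup.sum_mem _ fun α hα => ?_
    have hαK : α.degree ≤ K := (MvPolynomial.le_totalDegree hα).trans hgK
    have e1 : s (θ (coeff α g)) ∈ δ.F (p * (d - α.degree)) := by
      rw [hθ]; exact CT4.pow_mem δ _ _ (hco α) p
    have e2 : s (θ 𝒟.Δ ^ (K - α.degree)) ∈ δ.F ((K - α.degree : ℕ) * (p * dΔ)) := by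
      rw [map_pow, hθ]
      exact CT4.pow_mem δ _ _ (CT4.pow_mem δ _ _ hdg.Δ1 p) _
    have e3 : s (∏ i, Y' i ^ α i) ∈ δ.F (∑ i, (α i : ℤ) * (p * (dΔ + 1))) := by
      refine CT4.prod_mem δ s _ _ _ fun i _ => ?_
      rw [map_pow]
      exact CT4.pow_mem δ _ _ (hYd i) _
    rw [map_mul, map_mul]
    have h := δ.mul _ _ _ _ (δ.mul _ _ _ _ e1 e2) e3
    have hdeg : (∑ i, (α i : ℤ) * (p * (dΔ + 1))) = α.degree * (p * (dΔ + 1)) := by
      rw [← Finset.sum_mul]
      congr 1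
      rw [Finsupp.degree_eq_sum]
      push_cast; rfl
    rw [hdeg, Nat.cast_sub hαK] at h
    have : (p : ℤ) * (d - α.degree) + ((K : ℤ) - α.degree) * (p * dΔ) +
        α.degree * (p * (dΔ + 1)) = p * d + p * K * dΔ := by ring
    rw [this] at h
    exact h
  rw [← hsub, map_mul, map_pow, map_pow, hθ, hevF, ← pow_mul] at hright
  -- the left side is large
  have hl1 : (ev F) ^ p ∉ δ.F (p * (d + 1) - 1) := CT4.pow_not_mem δ _ _ hF p (by omega)
  have hl2 : 𝒟.e 𝒟.Δ ^ (p * K) ∉ δ.F ((p * K : ℕ) * dΔ - 1) := by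
    rcases Nat.eq_zero_or_pos (p * K) with h0 | h0
    · rw [h0, pow_zero]
      simp only [Nat.cast_zero, zero_mul, zero_sub]
      intro h
      apply hdg.Δ2
      have := δ.mul _ _ _ _ h hdg.Δ1
      rw [one_mul] at this
      have e : (-1 : ℤ) + dΔ = dΔ - 1 := by ring
      rwa [e] at this
    · have := CT4.pow_not_mem δ _ _ hdg.Δ2 (p * K) h0
      have e : ((p * K : ℕ) : ℤ) * (dΔ - 1 + 1) - 1 = ((p * K : ℕ) : ℤ) * dΔ - 1 := by ring
      rwa [e] at this
  have hl := δ.str _ _ _ _ hl2 hl1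
  apply hl
  refine δ.mono _ _ ?_ hright
  push_cast
  have : (2 : ℤ) ≤ p := by exact_mod_cast hp
  nlinarith

end Pool.MFL
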