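import Pool.Agent.H51.MFL.S
import Pool.Agent.H85.MFQ.COM

/-!
# Board mfl, module TLM: continuity of the Taylor coefficients in the base point
-/

set_option autoImplicit false

open Module MvPolynomial

namespace Pool.MFL

open Pool.MFQ Pool.MFM

namespace TLM

/-- The Taylor coefficient in a fixed direction depends continuously on the point. -/
theorem tay_cont {κ : Type} [Fintype κ] (a b : κ → ℂ) (f : (κ → ℂ) → ℂ) (k : ℕ)
    (hf : AnalyticAt ℂ f a) (x : κ → ℂ) :
    Filter.Tendsto (fun t : ℂ => tayE (fun z => a z + t * b z) f k x) (nhds 0)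
      (nhds (tayE a f k x)) := by
  have hc : Continuous fun t : ℂ => (fun z => a z + t * b z : κ → ℂ) := by fun_prop
  have h0 : (fun z => a z + (0 : ℂ) * b z : κ → ℂ) = a := by funext z; simp
  have ht : Filter.Tendsto (fun t : ℂ => (fun z => a z + t * b z : κ → ℂ)) (nhds 0) (nhds a) := by
    have := hc.tendsto 0
    rwa [h0] at this
  have h1 : ContinuousAt (iteratedFDeriv ℂ k f) a :=
    (hf.contDiffAt (n := (k : WithTop ℕ∞))).continuousAt_iteratedFDeriv le_rfl
  have h2 : Filter.Tendsto (fun t : ℂ => iteratedFDeriv ℂ k f (fun z => a z + t * b z)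
      (fun _ => x)) (nhds 0) (nhds (iteratedFDeriv ℂ k f a (fun _ => x))) := by
    have h3 : Filter.Tendsto (fun t : ℂ => iteratedFDeriv ℂ k f (fun z => a z + t * b z))
      (nhds 0) (nhds (iteratedFDeriv ℂ k f a)) := h1.tendsto.comp ht
    exact ((ContinuousMultilinearMap.apply ℂ (fun _ : Fin k => κ → ℂ) ℂ
      (fun _ => x)).continuous.tendsto _).comp h3
  have h4 := h2.const_mul ((((k.factorial : ℕ) : ℂ))⁻¹)
  have h5 : tayE a f k x = (((k.factorial : ℕ) : ℂ))⁻¹ * iteratedFDeriv ℂ k f a (fun _ => x) := by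
    rw [tayE, Pool.MFQ.COMaux.line k ℂ f a x hf]
  rw [h5]
  refine h4.congr' ?_
  filter_upwards [ht.eventually hf.eventually_analyticAt] with t htt
  rw [tayE, Pool.MFQ.COMaux.line k ℂ f _ x htt]

/-- Coefficients of homogeneous polynomials are combinations of values. -/
theorem coeff_val {κ : Type} [Fintype κ] (k : ℕ) (α : κ →₀ ℕ) :
    ∃ (n : ℕ) (x : Fin n → κ → ℂ) (c : Fin n → ℂ), ∀ p : MvPolynomial κ ℂ,
      p.IsHomogeneous k → coeff α p = ∑ i, c i * eval (x i) p := by
  let W := homogeneousSubmodule κ ℂ k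
  have : FiniteDimensional ℂ W := Module.Finite.iff_fg.mpr (homogeneousSubmodule_fg κ ℂ k)
  let L : (κ → ℂ) → W →ₗ[ℂ] ℂ := fun x => ((aeval x : MvPolynomial κ ℂ →ₐ[ℂ] ℂ).toLinearMap).comp
    W.subtype
  let K : W →ₗ[ℂ] ℂ := (lcoeff ℂ α).comp W.subtype
  have h : ⨅ x, LinearMap.ker (L x) ≤ LinearMap.ker K := by
    intro p hp
    have h1 : (p : MvPolynomial κ ℂ) = 0 := by
      apply MvPolynomial.funext
      intro x
      have := (Submodule.mem_iInf _).1 hp x
      rw [LinearMap.mem_ker] at this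
      simpa [L, MvPolynomial.aeval_eq_eval] using this
    rw [LinearMap.mem_ker]
    simp [K, h1]
  have h2 := FiniteDimensional.mem_span_of_iInf_ker_le_ker h
  rw [Finsupp.mem_span_range_iff_exists_finsupp] at h2
  obtain ⟨c, hc⟩ := h2
  refine ⟨c.support.card, fun i => (c.support.equivFin.symm i : κ → ℂ),
    fun i => c (c.support.equivFin.symm i), fun p hp => ?_⟩
  have h3 := LinearMap.congr_fun hc ⟨p, hp⟩
  have h4 : coeff α p = K ⟨p, hp⟩ := rfl
  rw [h4, ← h3, Finsupp.sum, LinearMap.sum_apply]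
  rw [← Finset.sum_coe_sort c.support]
  rw [← Equiv.sum_comp c.support.equivFin.symm]
  refine Finset.sum_congr rfl fun i _ => ?_
  simp [L, MvPolynomial.aeval_eq_eval]

end TLM

/-- Continuity of the Taylor coefficients in the base point. -/
theorem t_tlm : TLMStmt := by
  intro κ _ a b f k p hf hp α
  obtain ⟨n, x, c, hc⟩ := TLM.coeff_val (κ := κ) k α
  have hp0 := hp.self_of_nhds
  have h1 : Filter.Tendsto (fun t => ∑ i, c i * tayE (fun z => a z + t * b z) f k (x i))
      (nhds (0 : ℂ)) (nhds (∑ i, c i * tayE a f k (x i))) :=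
    tendsto_finsetSum _ fun i _ => (TLM.tay_cont a b f k hf (x i)).const_mul (c i)
  have h0 : (fun z => a z + (0 : ℂ) * b z : κ → ℂ) = a := by funext z; simp
  have h2 : ∑ i, c i * tayE a f k (x i) = coeff α (p 0) := by
    rw [hc _ hp0.1]
    refine Finset.sum_congr rfl fun i _ => ?_
    rw [← hp0.2, h0]
  rw [← h2]
  refine h1.congr' ?_
  filter_upwards [hp] with t ht
  rw [hc _ ht.1]
  refine Finset.sum_congr rfl fun i _ => ?_
  rw [← ht.2]

end Pool.MFL
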